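import Pool.Agent.MP_4e5648_mp.H15.Final

set_option autoImplicit false

namespace Pool.Agent.Results.MP_4e5648_mp.CircleEllipse

/-- Q2: a circle of centre `F` and a non-circular ellipse with focus `F`, in arbitrary planes
through `F` in 3-space, have at most 10 stationary points of the squared distance. -/
theorem result :
    ∀ (F u₁ w₁ u₂ w₂ : EuclideanSpace ℝ (Fin 3)) (R a e : ℝ)
      (P Q : ℝ → EuclideanSpace ℝ (Fin 3)),
      0 < R → 0 < a → 0 < e → e < 1 →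
      ‖u₁‖ = 1 → ‖w₁‖ = 1 → inner ℝ u₁ w₁ = 0 →
      ‖u₂‖ = 1 → ‖w₂‖ = 1 → inner ℝ u₂ w₂ = 0 →
      (∀ s : ℝ, P s = F + (R * Real.cos s) • u₁ + (R * Real.sin s) • w₁) →
      (∀ t : ℝ, Q t = F + (a * (e + Real.cos t)) • u₂
          + (a * Real.sqrt (1 - e ^ 2) * Real.sin t) • w₂) →
      ({x : EuclideanSpace ℝ (Fin 3) × EuclideanSpace ℝ (Fin 3) |
          ∃ s t : ℝ, x = (P s, Q t) ∧ HasDerivAt (fun s' => ‖P s' - Q t‖ ^ 2) 0 s ∧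
            HasDerivAt (fun t' => ‖P s - Q t'‖ ^ 2) 0 t}).Finite ∧
      ({x : EuclideanSpace ℝ (Fin 3) × EuclideanSpace ℝ (Fin 3) |
          ∃ s t : ℝ, x = (P s, Q t) ∧ HasDerivAt (fun s' => ‖P s' - Q t‖ ^ 2) 0 s ∧
            HasDerivAt (fun t' => ‖P s - Q t'‖ ^ 2) 0 t}).ncard ≤ 10 := by
  intro F u₁ w₁ u₂ w₂ R a e P Q hR ha e0 e1 hu₁ hw₁ h₁ hu₂ hw₂ h₂ hP hQ
  have h := Pool.Agent.MP_4e5648_mp.H15.circle_ellipse F u₁ w₁ u₂ w₂ R a e P Q hR ha e0 e1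
    hu₁ hw₁ h₁ hu₂ hw₂ h₂ hP hQ
  have hf := Set.finite_of_encard_le_coe (k := 10) h
  refine ⟨hf, ?_⟩
  rw [← hf.cast_ncard_eq] at h
  exact_mod_cast h

end Pool.Agent.Results.MP_4e5648_mp.CircleEllipse
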